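import Pool.Agent.Work.MP_ef7f46_tn_helper86.WTD2
import Pool.Agent.Work.MP_ef7f46_tn_helper45.FIN

/-!
Block FIN2 of project TN: the theorem for all small `ε` (adapted from block FIN of helper45).
-/

set_option autoImplicit false
open Classical Finset

noncomputable section

namespace TN

/-- FIN2: the theorem -/
def Stmt_FIN2 : Prop :=
  ∃ c : ℝ, 0 < c ∧ ∃ ε₀ : ℝ, 0 < ε₀ ∧ ε₀ < 1 ∧ ∀ ε : ℝ, 0 < ε → ε < ε₀ →
    (∃ P : Finset (ℝ × ℝ), P.Nonempty ∧ ∀ T, IsPointNet ε P T →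
      c * (1 / ε) * Real.log (1 / ε) ≤ (T.card : ℝ)) ∧
    (∃ (P : Finset (ℝ × ℝ)) (w : Set (ℝ × ℝ) → ℝ), 2 ≤ P.card ∧
      (∀ l ∈ spannedLines P, 0 < w l) ∧
      (∀ p ∈ P, ε * (∑ l ∈ spannedLines P, w l) ≤ (∑ l ∈ spannedLines P with p ∈ l, w l) →
        ∃ l ∈ spannedLines P, p ∈ l ∧ ε ^ 2 * (∑ l' ∈ spannedLines P, w l') ≤ w l) ∧
      ∀ N, IsEpsNet ε P w N → (∀ l ∈ N, ε ^ 2 * (∑ l' ∈ spannedLines P, w l') ≤ w l) →
        c * (1 / ε) * Real.log (1 / ε) ≤ (N.card : ℝ))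

open FIN in
theorem fin2_ok (h1 : Stmt_CLS) (h2 : Stmt_WTD2) : Stmt_FIN2 := by
  obtain ⟨u₁, hu₁⟩ := h1
  obtain ⟨u₂, hu₂⟩ := h2
  obtain ⟨n, hn⟩ := exists_nat_ge (Real.exp 800)
  obtain ⟨U, hU⟩ : ∃ U : ℕ, U = max (max u₁ u₂) (max (2 ^ 69) n) := ⟨_, rfl⟩
  refine ⟨cc, by unfold cc; positivity, 1 / (8 * ((U : ℝ) + 1) ^ 66), by positivity, ?_, ?_⟩
  · rw [div_lt_one (by positivity)]
    have : (1 : ℝ) ≤ ((U : ℝ) + 1) ^ 66 := by
      apply one_le_pow₀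
      have : (0 : ℝ) ≤ U := Nat.cast_nonneg _
      linarith
    linarith
  · intro ε hε hεε
    have hU0 : (0 : ℝ) ≤ U := Nat.cast_nonneg _
    have hU1 : (1 : ℝ) ≤ ((U : ℝ) + 1) ^ 66 := one_le_pow₀ (by linarith)
    rw [lt_div_iff₀ (by positivity)] at hεε
    have hε1 : ε < 1 := by
      have : ε * 8 ≤ ε * (8 * ((U : ℝ) + 1) ^ 66) :=
        mul_le_mul_of_nonneg_left (by linarith) hε.le
      linarith
    obtain ⟨u, hu, hu'⟩ := exists_u ε hε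
    have hUu : U ≤ u := by
      by_contra hcon
      rw [not_le] at hcon
      have h3 : (u : ℝ) + 1 ≤ (U : ℝ) + 1 := by
        have : (u : ℝ) ≤ U := by exact_mod_cast hcon.le
        linarith
      have h4 : ((u : ℝ) + 1) ^ 66 ≤ ((U : ℝ) + 1) ^ 66 := pow_le_pow_left₀ (by positivity) h3 66
      have h5 : 8 * ε * ((u : ℝ) + 1) ^ 66 ≤ 8 * ε * ((U : ℝ) + 1) ^ 66 :=
        mul_le_mul_of_nonneg_left h4 (by positivity)
      have h6 : 8 * ε * ((U : ℝ) + 1) ^ 66 = ε * (8 * ((U : ℝ) + 1) ^ 66) := by ring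
      linarith
    have hu₁u : u₁ ≤ u := by omega
    have hu₂u : u₂ ≤ u := by omega
    have h69 : 2 ^ 69 ≤ u := by omega
    have hnu : n ≤ u := by omega
    have hexp : Real.exp 800 ≤ u := hn.trans (by exact_mod_cast hnu)
    have hu1 : 1 ≤ u := le_trans (by norm_num) h69
    have hupos : (0 : ℝ) < u := by exact_mod_cast hu1
    have hεu : ε ≤ 1 / (8 * (u : ℝ) ^ 66) := by
      rw [le_div_iff₀ (by positivity)]
      have : ε * (8 * (u : ℝ) ^ 66) = 8 * ε * (u : ℝ) ^ 66 := by ring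
      linarith
    have hsc := scalar u ε hε hε1 h69 hexp hu'
    constructor
    · obtain ⟨P, hP, hT⟩ := hu₁ u hu₁u
      exact ⟨P, hP, fun T hTT => hsc.trans (hT ε hε hεu T hTT)⟩
    · obtain ⟨P, w, hP, hw, hH, hN⟩ := hu₂ u hu₂u ε hε hεu
      exact ⟨P, w, hP, hw, hH, fun N h3 h4 => hsc.trans (hN N h3 h4)⟩

end TN
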