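import Pool.Agent.Work.MP_ef7f46_tn_helper86.All
import Pool.Agent.Work.MP_ef7f46_tn_helper86.FIN2

/-!
MP_ef7f46_co, project TN: assembly with the non-vacuous weighted form (helper86).
-/

set_option autoImplicit false

namespace TN

theorem a_wtd2 : Stmt_WTD2 := wtd2_ok a_cmb
theorem a_fin2 : Stmt_FIN2 := fin2_ok a_cls a_wtd2

end TN
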