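import Pool.Agent.Work.MP_ef7f46_tn.Interface

/-!
MP_ef7f46_co, project TN: block DET (helper86).
-/

set_option autoImplicit false
set_option linter.unusedSectionVars false
open Classical Finset

noncomputable section

namespace TN.DET

variable {Q Λ : Type} [Fintype Q] [Fintype Λ]

/-- a line hit by a point of an earlier batch has weight 0 -/
theorem hit_zero (X : Ctx Q Λ) (z : Pos X → Q) (I : Finset (Pos X)) (ℓ : Λ) (p : Pos X)
    (hp : p ∈ I) (hz : z p ∈ X.inc ℓ) : ∀ i : ℕ, p.1.val < i → (st X z I i).W ℓ = 0 := by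
  intro i
  induction i with
  | zero => intro h; exact absurd h (Nat.not_lt_zero _)
  | succ i ih =>
    intro h
    by_cases hi : i < X.m
    · have hstep : st X z I (i + 1) =
          step X (st X z I i) (fun j => z (⟨i, hi⟩, j)) (sl X I ⟨i, hi⟩) := by
        simp only [st]
        rw [dif_pos hi]
      rw [hstep]
      simp only [step]
      by_cases hpi : p.1.val = i
      · have hp1 : p.1 = ⟨i, hi⟩ := Fin.ext hpi
        rw [if_pos]
        refine ⟨p.2, ?_, ?_⟩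
        · unfold sl
          rw [Finset.mem_filter]
          refine ⟨Finset.mem_univ _, ?_⟩
          rw [← hp1]
          exact hp
        · rw [← hp1]
          exact hz
      · have hlt : p.1.val < i := by omega
        have h0 := ih hlt
        rw [h0]
        simp
    · have hstep : st X z I (i + 1) = st X z I i := by
        simp only [st]
        rw [dif_neg hi]
      rw [hstep]
      apply ih
      have := p.1.isLt
      omega

end TN.DET

namespace TN

open DET in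
theorem det_ok (hPSI : Stmt_PSI) (hSTB : Stmt_STB) (hPSU : Stmt_PSU) (hMSU : Stmt_MSU) :
    Stmt_DET := by
  intro Q Λ _ _ X hX hN z hz hf I hI
  have hNpos : (0 : ℝ) < X.N := by exact_mod_cast hX.lin.Npos
  have hMpos : (0 : ℝ) < X.M := by exact_mod_cast hX.lin.Mpos
  have hqp : 0 < qq X := by unfold qq; positivity
  have hst := (hSTB Q Λ X hX).2.1 z I X.m
  have hlam : (64 : ℝ) ≤ X.lam := by exact_mod_cast hN.lam64
  have hOm := (hPSU Q Λ X hX hN z hz I hI X.m le_rfl).1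
  have hMa := hMSU Q Λ X hX hN z hz hf I hI
  set S := st X z I X.m with hS
  -- mass of the lines with large intensity
  have hsW : ∑ ℓ, S.s ℓ * S.W ℓ ≤ (6 / 400 * (X.lam : ℝ) + 1) * qq X := by
    refine le_trans ?_ hOm
    unfold Om
    have h1 : 0 ≤ ∑ y, psi (G X S.W y) := Finset.sum_nonneg fun y _ => (hPSI _ 0).2.1
    have h2 : 0 ≤ X.C * ∑ y, psi (G X S.W y) := mul_nonneg (by linarith [hX.Cpos]) h1
    linarith
  have hlarge : ∑ ℓ ∈ univ.filter (fun ℓ => ¬ S.s ℓ ≤ X.lam / 4), S.W ℓ ≤ 1 / 8 * qq X := by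
    have h1 : (X.lam : ℝ) / 4 * ∑ ℓ ∈ univ.filter (fun ℓ => ¬ S.s ℓ ≤ X.lam / 4), S.W ℓ ≤
        ∑ ℓ, S.s ℓ * S.W ℓ := by
      rw [Finset.mul_sum]
      calc ∑ ℓ ∈ univ.filter (fun ℓ => ¬ S.s ℓ ≤ X.lam / 4), (X.lam : ℝ) / 4 * S.W ℓ
          ≤ ∑ ℓ ∈ univ.filter (fun ℓ => ¬ S.s ℓ ≤ X.lam / 4), S.s ℓ * S.W ℓ := by
            refine Finset.sum_le_sum fun ℓ hℓ => ?_
            have h := (Finset.mem_filter.mp hℓ).2
            exact mul_le_mul_of_nonneg_right (le_of_lt (not_le.mp h)) (hst ℓ).1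
        _ ≤ ∑ ℓ, S.s ℓ * S.W ℓ :=
            Finset.sum_le_univ_sum_of_nonneg fun ℓ => mul_nonneg (hst ℓ).2.2.1 (hst ℓ).1
    have h2 : (6 / 400 * (X.lam : ℝ) + 1) * qq X ≤ (X.lam : ℝ) / 4 * (1 / 8 * qq X) := by
      nlinarith [hlam, hqp]
    have h3 := (h1.trans hsW).trans h2
    exact le_of_mul_le_mul_left h3 (by linarith)
  have hsmall : 3 / 8 * qq X ≤ ∑ ℓ ∈ univ.filter (fun ℓ => S.s ℓ ≤ X.lam / 4), S.W ℓ := by
    have h1 := Finset.sum_filter_add_sum_filter_not univ (fun ℓ => S.s ℓ ≤ X.lam / 4) S.W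
    linarith
  -- number of surviving lines
  set H := univ.filter (fun ℓ => S.s ℓ ≤ X.lam / 4 ∧ S.W ℓ ≠ 0) with hH
  have hcard : 3 / 8 * qq X ≤ (H.card : ℝ) * Real.exp ((X.lam : ℝ) / 4) := by
    calc 3 / 8 * qq X ≤ ∑ ℓ ∈ univ.filter (fun ℓ => S.s ℓ ≤ X.lam / 4), S.W ℓ := hsmall
      _ = ∑ ℓ ∈ H, S.W ℓ := by
          symm
          apply Finset.sum_subset
          · intro ℓ hℓ
            rw [hH, Finset.mem_filter] at hℓ
            rw [Finset.mem_filter]
            exact ⟨hℓ.1, hℓ.2.1⟩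
          · intro ℓ hℓ hn
            rw [Finset.mem_filter] at hℓ
            by_contra hne
            apply hn
            rw [hH, Finset.mem_filter]
            exact ⟨hℓ.1, hℓ.2, hne⟩
      _ ≤ ∑ ℓ ∈ H, Real.exp ((X.lam : ℝ) / 4) := by
          refine Finset.sum_le_sum fun ℓ hℓ => ?_
          rw [hH, Finset.mem_filter] at hℓ
          exact (hst ℓ).2.1.trans (Real.exp_le_exp.mpr hℓ.2.1)
      _ = (H.card : ℝ) * Real.exp ((X.lam : ℝ) / 4) := by
          rw [Finset.sum_const, nsmul_eq_mul]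
  have hcard' : 3 / 8 * Real.exp (-((X.lam : ℝ) / 4)) * qq X ≤ (H.card : ℝ) := by
    have e1 : Real.exp (-((X.lam : ℝ) / 4)) * Real.exp ((X.lam : ℝ) / 4) = 1 := by
      rw [← Real.exp_add]; simp
    have h1 := mul_le_mul_of_nonneg_left hcard (Real.exp_pos (-((X.lam : ℝ) / 4))).le
    calc 3 / 8 * Real.exp (-((X.lam : ℝ) / 4)) * qq X
        = Real.exp (-((X.lam : ℝ) / 4)) * (3 / 8 * qq X) := by ring
      _ ≤ Real.exp (-((X.lam : ℝ) / 4)) * ((H.card : ℝ) * Real.exp ((X.lam : ℝ) / 4)) := h1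
      _ = (H.card : ℝ) * (Real.exp (-((X.lam : ℝ) / 4)) * Real.exp ((X.lam : ℝ) / 4)) := by ring
      _ = (H.card : ℝ) := by rw [e1, mul_one]
  set P1 := univ.filter (fun ℓ => (pz X z ℓ : ℝ) ≤ X.lam / 8) with hP1
  set P2 := univ.filter (fun ℓ => ∃ p p', p ≠ p' ∧ z p = z p' ∧ z p ∈ X.inc ℓ) with hP2
  have hlt : ((P1 ∪ P2).card : ℝ) < (H.card : ℝ) := by
    have h0 : ((P1 ∪ P2).card : ℝ) ≤ (P1.card : ℝ) + (P2.card : ℝ) := by
      exact_mod_cast Finset.card_union_le P1 P2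
    have h1 := hz.poor
    have h2 := hz.replines
    have h3 := mul_lt_mul_of_pos_right hN.poor hqp
    rw [← hP1] at h1
    rw [← hP2] at h2
    nlinarith [h0, h1, h2, h3, hcard']
  have hlt' : (P1 ∪ P2).card < H.card := by exact_mod_cast hlt
  obtain ⟨ℓ, hℓH, hℓP⟩ := Finset.exists_mem_notMem_of_card_lt_card hlt'
  rw [hH, Finset.mem_filter] at hℓH
  rw [Finset.mem_union, not_or] at hℓP
  refine ⟨ℓ, ?_, ?_, ?_⟩
  · intro p hp hzp
    exact hℓH.2.2 (hit_zero X z I ℓ p hp hzp X.m p.1.isLt)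
  · have h := hℓP.1
    rw [hP1, Finset.mem_filter] at h
    by_contra hc
    exact h ⟨Finset.mem_univ _, not_lt.mp hc⟩
  · intro p p' h1 h2
    have h := hℓP.2
    rw [hP2, Finset.mem_filter] at h
    by_contra hc
    exact h ⟨Finset.mem_univ _, p, p', hc, h2, h1⟩

end TN
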