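import Pool.Agent.Work.MP_ef7f46_tn.Interface

/-!
MP_ef7f46_co, project TN: block PSU (helper86).
-/

set_option autoImplicit false
set_option linter.unusedSectionVars false
open Classical Finset

noncomputable section

namespace TN.PSU

variable {Q Λ : Type} [Fintype Q] [Fintype Λ]

/-- slices of a set of positions -/
theorem sum_sl (X : Ctx Q Λ) (I : Finset (Pos X)) :
    ∑ i : Fin X.m, ((sl X I i).card : ℝ) = (I.card : ℝ) := by
  have h1 : (I.card : ℝ) = ∑ p : Pos X, (if p ∈ I then (1 : ℝ) else 0) := by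
    rw [Finset.sum_ite_mem]
    simp
  rw [h1, Fintype.sum_prod_type]
  refine Finset.sum_congr rfl fun i _ => ?_
  unfold sl
  rw [← Finset.sum_filter]
  simp

/-- the potential controls the number of points of large local mass -/
theorem big_le (hPSI : Stmt_PSI) (X : Ctx Q Λ) (hC : 1 ≤ X.C) (S : St Λ)
    (hS : ∀ ℓ, 0 ≤ S.W ℓ ∧ 0 ≤ S.s ℓ) (B : ℝ) (hB : Om X S ≤ B) :
    X.C / 2 * ((big X S.W).card : ℝ) ≤ B := by
  refine le_trans ?_ hB
  unfold Om
  have h1 : 0 ≤ ∑ ℓ, S.s ℓ * S.W ℓ :=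
    Finset.sum_nonneg fun ℓ _ => mul_nonneg (hS ℓ).2 (hS ℓ).1
  have h2 : (1 / 2 : ℝ) * ((big X S.W).card : ℝ) ≤ ∑ y, psi (G X S.W y) := by
    calc (1 / 2 : ℝ) * ((big X S.W).card : ℝ) = ∑ y ∈ big X S.W, (1 / 2 : ℝ) := by
          rw [Finset.sum_const, nsmul_eq_mul]; ring
      _ ≤ ∑ y ∈ big X S.W, psi (G X S.W y) := by
          refine Finset.sum_le_sum fun y hy => ?_
          have hy' : 3 < G X S.W y := by
            have := hy
            unfold big at this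
            exact (Finset.mem_filter.mp this).2
          exact (hPSI (G X S.W y) 0).2.2.2.1 hy'.le
      _ ≤ ∑ y, psi (G X S.W y) :=
          Finset.sum_le_univ_sum_of_nonneg fun y => (hPSI (G X S.W y) 0).2.1
  nlinarith [h1, h2, hC]

/-- error of the batch `i` -/
def tt (X : Ctx Q Λ) (z : Pos X → Q) (I : Finset (Pos X)) (i : Fin X.m) : ℝ :=
  X.b * Rc X * X.N * (X.tau + X.eta + X.eps) +
    Rc X * ∑ ℓ, ((pc X (fun j => z (i, j)) ℓ).choose 2 : ℝ) + 6 * X.N * (sl X I i).card +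
    X.C / 2 * (2 * Real.exp (2 * X.lam) * ((X.lam : ℝ) / X.m) ^ 2 * qq X +
      2 * Real.exp (2 * X.lam) / X.N ^ 2 * ∑ y, (∑ j, chi X.inc y (z (i, j))) ^ 2)

theorem qq_nonneg (X : Ctx Q Λ) : 0 ≤ qq X := by unfold qq; positivity

theorem Rc_nonneg (X : Ctx Q Λ) (hC : 1 ≤ X.C) : 0 ≤ Rc X := by
  unfold Rc; positivity

theorem tt_nonneg (X : Ctx Q Λ) (hX : Reg X) (z : Pos X → Q) (I : Finset (Pos X)) (i : Fin X.m) :
    0 ≤ tt X z I i := by
  have h1 := qq_nonneg X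
  have h2 := Rc_nonneg X hX.Cpos
  have h3 := hX.taupos
  have h4 := hX.etapos
  have h5 := hX.epspos
  have h6 := hX.Cpos
  unfold tt
  positivity

theorem sum_tt (X : Ctx Q Λ) (hX : Reg X) (hN : Num X) (z : Pos X → Q) (hz : Typ X z)
    (I : Finset (Pos X)) (hI : (I.card : ℝ) ≤ X.lam * X.M / 400) :
    ∑ i, tt X z I i ≤ (6 / 400 * (X.lam : ℝ) + 1) * qq X := by
  have hNpos : (0 : ℝ) < X.N := by exact_mod_cast hX.lin.Npos
  have hMpos : (0 : ℝ) < X.M := by exact_mod_cast hX.lin.Mpos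
  have hmpos : (0 : ℝ) < X.m := by exact_mod_cast hX.mpos
  have hmb : (X.m : ℝ) * X.b = X.lam * X.M := by exact_mod_cast hX.mb
  have hq : qq X = (X.N : ℝ) * X.M := rfl
  have hqp : 0 < qq X := by rw [hq]; positivity
  have hR := Rc_nonneg X hX.Cpos
  have hE : 0 ≤ X.tau + X.eta + X.eps := by
    have := hX.taupos; have := hX.etapos; have := hX.epspos; positivity
  unfold tt
  rw [Finset.sum_add_distrib, Finset.sum_add_distrib, Finset.sum_add_distrib]
  have a1 : ∑ _i : Fin X.m, (X.b * Rc X * X.N * (X.tau + X.eta + X.eps)) ≤ 1 / 4 * qq X := by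
    rw [Finset.sum_const, Finset.card_univ, Fintype.card_fin, nsmul_eq_mul]
    have e : (X.m : ℝ) * (X.b * Rc X * X.N * (X.tau + X.eta + X.eps))
        = (X.lam * Rc X * (X.tau + X.eta + X.eps)) * qq X := by
      rw [hq]
      calc (X.m : ℝ) * (X.b * Rc X * X.N * (X.tau + X.eta + X.eps))
          = ((X.m : ℝ) * X.b) * (Rc X * X.N * (X.tau + X.eta + X.eps)) := by ring
        _ = (X.lam * X.M) * (Rc X * X.N * (X.tau + X.eta + X.eps)) := by rw [hmb]
        _ = _ := by ring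
    rw [e]
    exact mul_le_mul_of_nonneg_right hN.err1 hqp.le
  have a2 : ∑ i : Fin X.m, (Rc X * ∑ ℓ, ((pc X (fun j => z (i, j)) ℓ).choose 2 : ℝ))
      ≤ 1 / 4 * qq X := by
    rw [← Finset.mul_sum]
    calc Rc X * ∑ i : Fin X.m, ∑ ℓ, ((pc X (fun j => z (i, j)) ℓ).choose 2 : ℝ)
        ≤ Rc X * (5 * (X.lam : ℝ) ^ 2 / X.m * qq X) := mul_le_mul_of_nonneg_left hz.multi hR
      _ = (Rc X * (5 * (X.lam : ℝ) ^ 2 / X.m)) * qq X := by ring
      _ ≤ 1 / 4 * qq X := mul_le_mul_of_nonneg_right hN.err2 hqp.le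
  have a3 : ∑ i : Fin X.m, (6 * (X.N : ℝ) * (sl X I i).card) ≤ 6 / 400 * X.lam * qq X := by
    rw [← Finset.mul_sum, sum_sl, hq]
    calc 6 * (X.N : ℝ) * (I.card : ℝ) ≤ 6 * (X.N : ℝ) * (X.lam * X.M / 400) :=
          mul_le_mul_of_nonneg_left hI (by positivity)
      _ = _ := by ring
  have a4 : ∑ i : Fin X.m, (X.C / 2 * (2 * Real.exp (2 * X.lam) * ((X.lam : ℝ) / X.m) ^ 2 * qq X +
      2 * Real.exp (2 * X.lam) / X.N ^ 2 * ∑ y, (∑ j, chi X.inc y (z (i, j))) ^ 2))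
      ≤ 1 / 4 * qq X := by
    have hC := hX.Cpos
    have t1 : ∑ _i : Fin X.m, (2 * Real.exp (2 * X.lam) * ((X.lam : ℝ) / X.m) ^ 2 * qq X)
        = (X.m : ℝ) * (2 * Real.exp (2 * X.lam) * ((X.lam : ℝ) / X.m) ^ 2 * qq X) := by
      rw [Finset.sum_const, Finset.card_univ, Fintype.card_fin, nsmul_eq_mul]
    have t2 : ∑ i : Fin X.m, (2 * Real.exp (2 * X.lam) / (X.N : ℝ) ^ 2 *
        ∑ y, (∑ j, chi X.inc y (z (i, j))) ^ 2)
        = 2 * Real.exp (2 * X.lam) / (X.N : ℝ) ^ 2 *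
        ∑ i : Fin X.m, ∑ y, (∑ j, chi X.inc y (z (i, j))) ^ 2 := by
      rw [← Finset.mul_sum]
    rw [← Finset.mul_sum, Finset.sum_add_distrib, t1, t2]
    have s1 : 2 * Real.exp (2 * X.lam) / (X.N : ℝ) ^ 2 *
        ∑ i : Fin X.m, ∑ y, (∑ j, chi X.inc y (z (i, j))) ^ 2 ≤
        2 * Real.exp (2 * X.lam) / (X.N : ℝ) ^ 2 *
        (10 * (2 * X.lam / X.N + (X.lam : ℝ) ^ 2 / X.m) * X.N ^ 2 * qq X) :=
      mul_le_mul_of_nonneg_left hz.second (by positivity)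
    have s2 : 2 * Real.exp (2 * X.lam) / (X.N : ℝ) ^ 2 *
        (10 * (2 * X.lam / X.N + (X.lam : ℝ) ^ 2 / X.m) * X.N ^ 2 * qq X) =
        2 * Real.exp (2 * X.lam) * (10 * (2 * X.lam / X.N + (X.lam : ℝ) ^ 2 / X.m)) * qq X := by
      field_simp
    have s3 : (X.m : ℝ) * (2 * Real.exp (2 * X.lam) * ((X.lam : ℝ) / X.m) ^ 2 * qq X) =
        2 * Real.exp (2 * X.lam) * ((X.lam : ℝ) ^ 2 / X.m) * qq X := by
      field_simp
    calc X.C / 2 * ((X.m : ℝ) * (2 * Real.exp (2 * X.lam) * ((X.lam : ℝ) / X.m) ^ 2 * qq X) +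
          2 * Real.exp (2 * X.lam) / (X.N : ℝ) ^ 2 *
          ∑ i : Fin X.m, ∑ y, (∑ j, chi X.inc y (z (i, j))) ^ 2)
        ≤ X.C / 2 * (2 * Real.exp (2 * X.lam) * ((X.lam : ℝ) ^ 2 / X.m) * qq X +
          2 * Real.exp (2 * X.lam) * (10 * (2 * X.lam / X.N + (X.lam : ℝ) ^ 2 / X.m)) * qq X) := by
          apply mul_le_mul_of_nonneg_left _ (by positivity)
          rw [s3]
          linarith [s1, s2]
      _ = (X.C * Real.exp (2 * X.lam) *
          ((X.lam : ℝ) ^ 2 / X.m + 10 * (2 * X.lam / X.N + (X.lam : ℝ) ^ 2 / X.m))) * qq X := by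
          ring
      _ ≤ 1 / 4 * qq X := mul_le_mul_of_nonneg_right hN.err3 hqp.le
  nlinarith [a1, a2, a3, a4, hqp]

end TN.PSU

namespace TN

open PSU in
theorem psu_ok (hPSI : Stmt_PSI) (hLC : Stmt_LCARD) (hSTB : Stmt_STB) (hGST : Stmt_GST)
    (hPST : Stmt_PST) : Stmt_PSU := by
  intro Q Λ _ _ X hX hN z hz I hI
  have hNpos : (0 : ℝ) < X.N := by exact_mod_cast hX.lin.Npos
  have hqp : 0 ≤ qq X := qq_nonneg X
  have hst := (hSTB Q Λ X hX).2.1
  -- partial sums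
  set T : ℕ → ℝ := fun k => if h : k < X.m then tt X z I ⟨k, h⟩ else 0 with hT
  have hT0 : ∀ k, 0 ≤ T k := by
    intro k
    rw [hT]
    dsimp only
    split_ifs with h
    · exact tt_nonneg X hX z I _
    · exact le_rfl
  have hTsum : ∑ k ∈ range X.m, T k = ∑ i, tt X z I i := by
    rw [Finset.sum_range]
    refine Finset.sum_congr rfl fun i _ => ?_
    rw [hT]
    dsimp only
    rw [dif_pos i.isLt]
  have htot := sum_tt X hX hN z hz I hI
  have hpart : ∀ i ≤ X.m, ∑ k ∈ range i, T k ≤ (6 / 400 * (X.lam : ℝ) + 1) * qq X := by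
    intro i hi
    calc ∑ k ∈ range i, T k ≤ ∑ k ∈ range X.m, T k :=
          Finset.sum_le_sum_of_subset_of_nonneg (Finset.range_mono hi) fun k _ _ => hT0 k
      _ ≤ _ := by rw [hTsum]; exact htot
  have hbig : ∀ S : St Λ, (∀ ℓ, 0 ≤ S.W ℓ ∧ 0 ≤ S.s ℓ) →
      Om X S ≤ (6 / 400 * (X.lam : ℝ) + 1) * qq X → ((big X S.W).card : ℝ) ≤ X.del / 2 * qq X := by
    intro S hS h
    have h1 := big_le hPSI X hX.Cpos S hS _ h
    have h2 := mul_le_mul_of_nonneg_right hN.bigd hqp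
    have hC := hX.Cpos
    have h3 : X.C / 2 * ((big X S.W).card : ℝ) ≤ X.C / 2 * (X.del / 2 * qq X) := by
      calc X.C / 2 * ((big X S.W).card : ℝ) ≤ (6 / 400 * (X.lam : ℝ) + 1) * qq X := h1
        _ ≤ X.C / 2 * (X.del / 2 * qq X) := by nlinarith [h2]
    exact le_of_mul_le_mul_left h3 (by positivity)
  have hmain : ∀ i ≤ X.m, Om X (st X z I i) ≤ ∑ k ∈ range i, T k := by
    intro i
    induction i with
    | zero =>
      intro _
      simp only [Finset.range_zero, Finset.sum_empty]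
      unfold Om
      have e1 : ∑ ℓ, (st X z I 0).s ℓ * (st X z I 0).W ℓ = 0 := by
        apply Finset.sum_eq_zero
        intro ℓ _
        simp [st]
      have e2 : ∑ y, psi (G X (st X z I 0).W y) = 0 := by
        apply Finset.sum_eq_zero
        intro y _
        apply (hPSI _ 0).2.2.1
        have h1 := (hLC Q Λ X.inc X.N X.M hX.lin).2.2.2 (st X z I 0).W 1
          (fun ℓ => by simp [st]) y
        unfold G
        rw [div_le_iff₀ hNpos]
        linarith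
      rw [e1, e2]
      simp
    | succ i ih =>
      intro hi
      have hi' : i < X.m := hi
      have ih' := ih hi'.le
      rw [Finset.sum_range_succ]
      have hb := hbig (st X z I i) (fun ℓ => ⟨(hst z I i ℓ).1, (hst z I i ℓ).2.2.1⟩)
        (ih'.trans (hpart i hi'.le))
      have hstep : st X z I (i + 1) =
          step X (st X z I i) (fun j => z (⟨i, hi'⟩, j)) (sl X I ⟨i, hi'⟩) := by
        simp only [st]
        rw [dif_pos hi']
      have hS : ∀ ℓ, 0 ≤ (st X z I i).W ℓ ∧ (st X z I i).W ℓ ≤ Real.exp X.lam ∧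
          0 ≤ (st X z I i).s ℓ ∧ (st X z I i).s ℓ ≤ X.lam := fun ℓ =>
        ⟨(hst z I i ℓ).1, (hst z I i ℓ).2.2.2.2, (hst z I i ℓ).2.2.1, (hst z I i ℓ).2.2.2.1⟩
      have h1 := hPST Q Λ X hX (st X z I i) hS hb (fun j => z (⟨i, hi'⟩, j))
        (fun J => hz.dense ⟨i, hi'⟩ J) (sl X I ⟨i, hi'⟩)
      have h2 := hGST Q Λ X hX (st X z I i) (fun ℓ => ⟨(hS ℓ).1, (hS ℓ).2.1⟩)
        (fun j => z (⟨i, hi'⟩, j)) (sl X I ⟨i, hi'⟩)
      have hC := hX.Cpos
      have h3 := mul_le_mul_of_nonneg_left h2 (by positivity : (0 : ℝ) ≤ X.C / 2)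
      have hTi : T i = tt X z I ⟨i, hi'⟩ := by
        rw [hT]; dsimp only; rw [dif_pos hi']
      rw [hstep, hTi]
      unfold tt
      linarith
  intro i hi
  have h := (hmain i hi).trans (hpart i hi)
  exact ⟨h, hbig (st X z I i) (fun ℓ => ⟨(hst z I i ℓ).1, (hst z I i ℓ).2.2.1⟩) h⟩

end TN
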