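import Pool.Agent.Work.MP_ef7f46_tn_helper17.BALB
import Pool.Agent.Work.MP_ef7f46_tn_helper17.TYS
import Pool.Agent.Work.MP_ef7f46_tn_helper2.CLS
import Pool.Agent.Work.MP_ef7f46_tn_helper2.GST
import Pool.Agent.Work.MP_ef7f46_tn_helper23.MUL
import Pool.Agent.Work.MP_ef7f46_tn_helper23.TYR
import Pool.Agent.Work.MP_ef7f46_tn_helper26.DMC
import Pool.Agent.Work.MP_ef7f46_tn_helper26.STB
import Pool.Agent.Work.MP_ef7f46_tn_helper31.SPEC
import Pool.Agent.Work.MP_ef7f46_tn_helper45.FIN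
import Pool.Agent.Work.MP_ef7f46_tn_helper45.PST
import Pool.Agent.Work.MP_ef7f46_tn_helper45.WTD
import Pool.Agent.Work.MP_ef7f46_tn_helper50.CE2
import Pool.Agent.Work.MP_ef7f46_tn_helper50.CNT
import Pool.Agent.Work.MP_ef7f46_tn_helper6.MST
import Pool.Agent.Work.MP_ef7f46_tn_helper6.MSU
import Pool.Agent.Work.MP_ef7f46_tn_helper64.DMA
import Pool.Agent.Work.MP_ef7f46_tn_helper64.PARN
import Pool.Agent.Work.MP_ef7f46_tn_helper68.CMB
import Pool.Agent.Work.MP_ef7f46_tn_helper68.PARX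
import Pool.Agent.Work.MP_ef7f46_tn_helper82.PLN
import Pool.Agent.Work.MP_ef7f46_tn_helper82.TYP
import Pool.Agent.Work.MP_ef7f46_tn_helper83.HOE
import Pool.Agent.Work.MP_ef7f46_tn_helper86.DET
import Pool.Agent.Work.MP_ef7f46_tn_helper86.PSU
import Pool.Agent.Work.MP_ef7f46_tn_helper87.ADP
import Pool.Agent.Work.MP_ef7f46_tn_helper87.CHE
import Pool.Agent.Work.MP_ef7f46_tn_helper87.LCARD
import Pool.Agent.Work.MP_ef7f46_tn_helper87.PSI
import Pool.Agent.Work.MP_ef7f46_tn_helper89.TYL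
import Pool.Agent.Work.MP_ef7f46_tn_helper89.TYM
import Pool.Agent.Work.MP_ef7f46_tn_helper92.EXI
import Pool.Agent.Work.MP_ef7f46_tn_helper92.NET
import Pool.Agent.Work.MP_ef7f46_tn_helper94.BALA
import Pool.Agent.Work.MP_ef7f46_tn_helper94.CE1

/-!
MP_ef7f46_co, project TN: assembly of the blocks (helper86).
-/

set_option autoImplicit false

namespace TN

theorem a_stb : Stmt_STB := stb_ok psi_ok
theorem a_bala : Stmt_BALA := bala_ok che_ok lcard_ok
theorem a_balb : Stmt_BALB := balb_ok che_ok lcard_ok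
theorem a_gst : Stmt_GST := gst_ok a_stb
theorem a_pst : Stmt_PST := pst_ok psi_ok lcard_ok a_stb mul_ok a_bala
theorem a_psu : Stmt_PSU := psu_ok psi_ok lcard_ok a_stb a_gst a_pst
theorem a_mst : Stmt_MST := mst_ok a_stb a_balb lcard_ok
theorem a_msu : Stmt_MSU := msu_ok a_stb lcard_ok a_psu a_mst
theorem a_det : Stmt_DET := det_ok psi_ok a_stb a_psu a_msu
theorem a_dmc : Stmt_DMC := dmc_ok dma_ok hoe_ok lcard_ok
theorem a_ce1 : Stmt_CE1 := ce1_ok che_ok a_stb adp_ok cnt_ok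
theorem a_ce2 : Stmt_CE2 := ce2_ok che_ok a_stb adp_ok cnt_ok
theorem a_exi : Stmt_EXI := exi_ok a_dmc a_ce1 a_ce2 (tym_ok lcard_ok) (tys_ok lcard_ok)
  (typ_ok lcard_ok) (tyl_ok lcard_ok) tyr_ok
theorem a_net : Stmt_NET := net_ok spec_ok lcard_ok
theorem a_parx : Stmt_PARX := parx_ok a_net parn_ok
theorem a_cmb : Stmt_CMB := cmb_ok a_parx pln_ok a_exi a_det
theorem a_cls : Stmt_CLS := cls_ok a_cmb
theorem a_wtd : Stmt_WTD := wtd_ok a_cmb
theorem a_fin : Stmt_FIN := fin_ok a_cls a_wtd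

end TN
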