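import Pool.Agent.Work.MP_ef7f46_tn.Interface

/-!
Block WTD2 of project TN: the weighted form, with the heavy lines through heavy points
(adapted from block WTD of helper45).
-/

set_option autoImplicit false
open Classical Finset

noncomputable section

namespace TN

namespace WTDn

/-- dual line of a point -/
def Dl (p : ℕ × ℕ) : Set (ℝ × ℝ) := {x | x.2 = (p.2 : ℝ) - p.1 * x.1}

lemma mem_Dl (p : ℕ × ℕ) (x : ℝ × ℝ) : x ∈ Dl p ↔ x.2 = (p.2 : ℝ) - p.1 * x.1 := Iff.rfl

lemma Dl_inj : Function.Injective Dl := by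
  intro p q h
  have h0 : ((0 : ℝ), (p.2 : ℝ)) ∈ Dl p := by
    rw [mem_Dl]; simp
  have h1 : ((1 : ℝ), (p.2 : ℝ) - p.1) ∈ Dl p := by
    rw [mem_Dl]; simp
  rw [h, mem_Dl] at h0 h1
  simp only [mul_zero, sub_zero, mul_one] at h0 h1
  have h2 : p.2 = q.2 := by exact_mod_cast h0
  have h3 : (p.1 : ℝ) = q.1 := by rw [h0] at h1; linarith
  have h4 : p.1 = q.1 := by exact_mod_cast h3
  exact Prod.ext h4 h2

lemma Dl_eq (p : ℕ × ℕ) :
    Dl p = lineThrough (-1, (p.2 : ℝ) + p.1) (-2, (p.2 : ℝ) + 2 * p.1) := by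
  ext x
  rw [mem_Dl, lineThrough, Set.mem_ofPred_eq]
  constructor
  · intro h
    simp only
    rw [h]; ring
  · intro h
    simp only at h
    linarith

/-- the points -/
def PP (n m : ℕ) (A : Finset (ℕ × ℕ)) : Finset (ℝ × ℝ) :=
  (((range n ×ˢ range m)).image (fun q => ((q.1 : ℝ), (q.2 : ℝ)))) ∪
    (A.image (fun p => ((-1 : ℝ), (p.2 : ℝ) + p.1)) ∪
      A.image (fun p => ((-2 : ℝ), (p.2 : ℝ) + 2 * p.1)))

lemma Dl_mem (n m : ℕ) (A : Finset (ℕ × ℕ)) (p : ℕ × ℕ) (hp : p ∈ A) :
    Dl p ∈ spannedLines (PP n m A) := by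
  unfold spannedLines
  rw [Finset.mem_image]
  refine ⟨((-1, (p.2 : ℝ) + p.1), (-2, (p.2 : ℝ) + 2 * p.1)), ?_, (Dl_eq p).symm⟩
  rw [Finset.mem_offDiag]
  refine ⟨?_, ?_, ?_⟩
  · unfold PP
    rw [Finset.mem_union, Finset.mem_union]
    exact Or.inr (Or.inl (Finset.mem_image.mpr ⟨p, hp, rfl⟩))
  · unfold PP
    rw [Finset.mem_union, Finset.mem_union]
    exact Or.inr (Or.inr (Finset.mem_image.mpr ⟨p, hp, rfl⟩))
  · intro h
    have := congrArg Prod.fst h
    norm_num at this

end WTDn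

/-- WTD2: weighted form for one parameter `u`; every heavy point lies on a line of weight
at least `ε²` times the total weight -/
def Stmt_WTD2 : Prop :=
  ∃ u₀ : ℕ, ∀ u : ℕ, u₀ ≤ u → ∀ ε : ℝ, 0 < ε → ε ≤ 1 / (8 * (u : ℝ) ^ 66) →
    ∃ (P : Finset (ℝ × ℝ)) (w : Set (ℝ × ℝ) → ℝ), 2 ≤ P.card ∧
      (∀ l ∈ spannedLines P, 0 < w l) ∧
      (∀ p ∈ P, ε * (∑ l ∈ spannedLines P, w l) ≤ (∑ l ∈ spannedLines P with p ∈ l, w l) →
        ∃ l ∈ spannedLines P, p ∈ l ∧ ε ^ 2 * (∑ l' ∈ spannedLines P, w l') ≤ w l) ∧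
      ∀ N, IsEpsNet ε P w N → (∀ l ∈ N, ε ^ 2 * (∑ l' ∈ spannedLines P, w l') ≤ w l) →
        (lamf u : ℝ) * (u : ℝ) ^ 66 / 800 ≤ (N.card : ℝ)

open WTDn in
theorem wtd2_ok (h1 : Stmt_CMB) : Stmt_WTD2 := by
  obtain ⟨u₀, hu₀⟩ := h1
  refine ⟨max u₀ 1, ?_⟩
  intro u hu ε hε hεu
  obtain ⟨A, ⟨p₀, hp₀⟩, hAcard, _, hA⟩ := hu₀ u ((le_max_left _ _).trans hu)
  have hu1 : 1 ≤ u := (le_max_right _ _).trans hu
  have hupos : (0 : ℝ) < u := by exact_mod_cast hu1
  obtain ⟨P, hP⟩ : ∃ P, P = PP (u ^ 32) (u ^ 66) A := ⟨_, rfl⟩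
  obtain ⟨t, ht⟩ : ∃ t : ℝ, t = min (ε ^ 2 / 2) (min (1 / (((spannedLines P).card : ℝ) + 1))
      (ε / (2 * (((spannedLines P).card : ℝ) + 1)))) := ⟨_, rfl⟩
  have ht0 : 0 < t := by
    rw [ht]
    apply lt_min
    · positivity
    · apply lt_min
      · positivity
      · positivity
  have ht1 : t < ε ^ 2 := by
    have h2 : t ≤ ε ^ 2 / 2 := by rw [ht]; exact min_le_left _ _
    have h3 : 0 < ε ^ 2 := by positivity
    linarith
  have ht2 : t * (spannedLines P).card ≤ 1 := by
    have h2 : t ≤ 1 / (((spannedLines P).card : ℝ) + 1) := by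
      rw [ht]; exact (min_le_right _ _).trans (min_le_left _ _)
    have h3 : (0 : ℝ) < ((spannedLines P).card : ℝ) + 1 := by positivity
    rw [le_div_iff₀ h3] at h2
    linarith
  have ht3 : t * (spannedLines P).card ≤ ε / 2 := by
    have h2 : t ≤ ε / (2 * (((spannedLines P).card : ℝ) + 1)) := by
      rw [ht]; exact (min_le_right _ _).trans (min_le_right _ _)
    have h3 : (0 : ℝ) < ((spannedLines P).card : ℝ) + 1 := by positivity
    rw [le_div_iff₀ (by positivity)] at h2
    nlinarith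
  obtain ⟨w, hw⟩ : ∃ w : Set (ℝ × ℝ) → ℝ, w = fun l => if ∃ p ∈ A, l = Dl p then 1 else t := ⟨_, rfl⟩
  have hw0 : ∀ l, 0 < w l := by
    intro l
    rw [hw]
    simp only
    split_ifs
    · exact one_pos
    · exact ht0
  have hwD : ∀ p ∈ A, w (Dl p) = 1 := by
    intro p hp
    rw [hw]
    simp only
    rw [if_pos ⟨p, hp, rfl⟩]
  have hDm : ∀ p ∈ A, Dl p ∈ spannedLines P := by
    intro p hp
    rw [hP]
    exact Dl_mem _ _ A p hp
  have hW1 : 1 ≤ ∑ l' ∈ spannedLines P, w l' := by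
    have h2 := Finset.single_le_sum (f := w) (s := spannedLines P) (fun l _ => (hw0 l).le)
      (hDm p₀ hp₀)
    rw [hwD p₀ hp₀] at h2
    exact h2
  have hW2 : ∑ l' ∈ spannedLines P, w l' ≤ A.card + 1 := by
    have h2 : ∑ l' ∈ spannedLines P, w l' ≤
        ∑ l' ∈ spannedLines P, ((if ∃ p ∈ A, l' = Dl p then (1 : ℝ) else 0) + t) := by
      apply Finset.sum_le_sum
      intro l _
      rw [hw]
      simp only
      split_ifs
      · linarith
      · linarith
    rw [Finset.sum_add_distrib, Finset.sum_const, nsmul_eq_mul, Finset.sum_ite,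
      Finset.sum_const, Finset.sum_const_zero, add_zero, nsmul_eq_mul, mul_one] at h2
    have h3 : (((spannedLines P).filter (fun l' => ∃ p ∈ A, l' = Dl p)).card : ℝ) ≤ A.card := by
      have h4 : (spannedLines P).filter (fun l' => ∃ p ∈ A, l' = Dl p) ⊆ A.image Dl := by
        intro l hl
        obtain ⟨p, hp, hlp⟩ := (Finset.mem_filter.mp hl).2
        exact Finset.mem_image.mpr ⟨p, hp, hlp.symm⟩
      exact_mod_cast (Finset.card_le_card h4).trans Finset.card_image_le
    linarith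
  refine ⟨P, w, ?_, fun l _ => hw0 l, ?_, ?_⟩
  · -- two points
    have h2 : ({((-1 : ℝ), (p₀.2 : ℝ) + p₀.1), ((-2 : ℝ), (p₀.2 : ℝ) + 2 * p₀.1)} :
        Finset (ℝ × ℝ)) ⊆ P := by
      rw [hP]
      intro x hx
      rw [Finset.mem_insert, Finset.mem_singleton] at hx
      unfold PP
      rw [Finset.mem_union, Finset.mem_union]
      rcases hx with rfl | rfl
      · exact Or.inr (Or.inl (Finset.mem_image.mpr ⟨p₀, hp₀, rfl⟩))
      · exact Or.inr (Or.inr (Finset.mem_image.mpr ⟨p₀, hp₀, rfl⟩))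
    have h3 := Finset.card_le_card h2
    rw [Finset.card_pair] at h3
    · exact h3
    · intro h
      have := congrArg Prod.fst h
      norm_num at this
  · -- heavy lines through heavy points
    intro x _ hx
    by_contra hcon
    push Not at hcon
    have hu66 : (1 : ℝ) ≤ (u : ℝ) ^ 66 := one_le_pow₀ (by exact_mod_cast hu1)
    have hlam : (lamf u : ℝ) ≤ (u : ℝ) ^ 66 := by
      have h2 : (lamf u : ℝ) ≤ Real.log u / 400 := by
        unfold lamf
        exact Nat.floor_le (by
          have := Real.log_nonneg (show (1 : ℝ) ≤ u by exact_mod_cast hu1)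
          positivity)
      have h3 : Real.log u ≤ u := (Real.log_le_sub_one_of_pos hupos).trans (by linarith)
      have h4 : (u : ℝ) ≤ (u : ℝ) ^ 66 := le_self_pow₀ (by exact_mod_cast hu1) (by norm_num)
      linarith
    have h4 : (A.card : ℝ) ≤ lamf u * (u : ℝ) ^ 66 := by exact_mod_cast hAcard
    have h5 : ε ^ 2 * (∑ l' ∈ spannedLines P, w l') ≤ 1 := by
      calc ε ^ 2 * (∑ l' ∈ spannedLines P, w l') ≤ (1 / (8 * (u : ℝ) ^ 66)) ^ 2 * (A.card + 1) := by
            apply mul_le_mul _ hW2 (by linarith) (by positivity)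
            exact pow_le_pow_left₀ hε.le hεu 2
        _ ≤ (1 / (8 * (u : ℝ) ^ 66)) ^ 2 * (2 * ((u : ℝ) ^ 66) ^ 2) := by
            apply mul_le_mul_of_nonneg_left _ (by positivity)
            nlinarith
        _ = 1 / 32 := by field_simp; norm_num
        _ ≤ 1 := by norm_num
    have h6 : ∑ l ∈ spannedLines P with x ∈ l, w l ≤ t * (spannedLines P).card := by
      calc ∑ l ∈ spannedLines P with x ∈ l, w l ≤ ∑ l ∈ spannedLines P with x ∈ l, t := by
            apply Finset.sum_le_sum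
            intro l hl
            obtain ⟨hl1, hl2⟩ := Finset.mem_filter.mp hl
            by_cases h7 : ∃ p ∈ A, l = Dl p
            · obtain ⟨p, hp, rfl⟩ := h7
              have h8 := hcon _ hl1 hl2
              rw [hwD p hp] at h8
              linarith
            · rw [hw]
              simp only
              rw [if_neg h7]
        _ ≤ t * (spannedLines P).card := by
            rw [Finset.sum_const, nsmul_eq_mul, mul_comm]
            apply mul_le_mul_of_nonneg_left _ ht0.le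
            exact_mod_cast Finset.card_le_card (Finset.filter_subset _ _)
    have h7 : ε * 1 ≤ ε * ∑ l' ∈ spannedLines P, w l' := mul_le_mul_of_nonneg_left hW1 hε.le
    linarith
  · intro N hN hNw
    obtain ⟨hNsub, hNnet⟩ := hN
    by_contra hcon
    rw [not_le] at hcon
    have hND : ∀ l ∈ N, ∃ p ∈ A, l = Dl p := by
      intro l hl
      by_contra hl2
      have h3 : w l = t := by
        rw [hw]
        simp only
        rw [if_neg hl2]
      have h4 := hNw l hl
      rw [h3] at h4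
      have h5 : ε ^ 2 * 1 ≤ ε ^ 2 * ∑ l' ∈ spannedLines P, w l' :=
        mul_le_mul_of_nonneg_left hW1 (by positivity)
      linarith
    have hTcard : ((A.filter (fun p => Dl p ∈ N)).card : ℝ) ≤ N.card := by
      have h2 : (A.filter (fun p => Dl p ∈ N)).card ≤ N.card := by
        apply Finset.card_le_card_of_injOn Dl
        · intro p hp
          exact (Finset.mem_filter.mp hp).2
        · intro a _ b _ hab
          exact Dl_inj hab
      exact_mod_cast h2
    obtain ⟨a, v, hv, hav, hcnt, hT⟩ := hA (A.filter (fun p => Dl p ∈ N))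
      (Finset.filter_subset _ _) (by linarith)
    obtain ⟨x, hx⟩ : ∃ x : ℝ × ℝ, x = ((v : ℝ), (a : ℝ)) := ⟨_, rfl⟩
    have hxP : x ∈ P := by
      rw [hP, hx]
      unfold PP
      rw [Finset.mem_union]
      left
      refine Finset.mem_image.mpr ⟨(v, a), ?_, rfl⟩
      rw [Finset.mem_product, Finset.mem_range, Finset.mem_range]
      exact ⟨hv, by omega⟩
    have hxD : ∀ p : ℕ × ℕ, x ∈ Dl p ↔ p.2 = a + p.1 * v := by
      intro p
      rw [mem_Dl, hx]
      simp only
      constructor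
      · intro h
        have h2 : (p.2 : ℝ) = a + p.1 * v := by linarith
        exact_mod_cast h2
      · intro h
        rw [h]
        push_cast
        ring
    have hheavy : ε * (∑ l ∈ spannedLines P, w l) ≤ (∑ l ∈ spannedLines P with x ∈ l, w l) := by
      have h2 : (((A.filter (fun p => p.2 = a + p.1 * v)).card : ℕ) : ℝ) ≤
          ∑ l ∈ spannedLines P with x ∈ l, w l := by
        have h3 : (A.filter (fun p => p.2 = a + p.1 * v)).image Dl ⊆
            (spannedLines P).filter (fun l => x ∈ l) := by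
          intro l hl
          obtain ⟨p, hp, rfl⟩ := Finset.mem_image.mp hl
          obtain ⟨hpA, hpe⟩ := Finset.mem_filter.mp hp
          exact Finset.mem_filter.mpr ⟨hDm p hpA, (hxD p).mpr hpe⟩
        have h4 := Finset.sum_le_sum_of_subset_of_nonneg h3 (f := w) (fun l _ _ => (hw0 l).le)
        refine le_trans (le_of_eq ?_) h4
        rw [Finset.sum_image (fun a _ b _ hab => Dl_inj hab)]
        rw [Finset.sum_congr rfl (fun p hp => hwD p (Finset.mem_filter.mp hp).1)]
        simp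
      refine le_trans ?_ h2
      have h3 : (lamf u : ℝ) + 1 ≤ 8 * (((A.filter (fun p => p.2 = a + p.1 * v)).card : ℕ) : ℝ) := by
        have h4 : (lamf u : ℝ) < 8 * (((A.filter (fun p => p.2 = a + p.1 * v)).card : ℕ) : ℝ) := by
          linarith
        have h5 : lamf u < 8 * (A.filter (fun p => p.2 = a + p.1 * v)).card := by exact_mod_cast h4
        exact_mod_cast h5
      have h4 : (A.card : ℝ) ≤ lamf u * (u : ℝ) ^ 66 := by exact_mod_cast hAcard
      have hu66 : (1 : ℝ) ≤ (u : ℝ) ^ 66 := one_le_pow₀ (by exact_mod_cast hu1)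
      calc ε * (∑ l ∈ spannedLines P, w l) ≤ ε * (A.card + 1) :=
            mul_le_mul_of_nonneg_left hW2 hε.le
        _ ≤ 1 / (8 * (u : ℝ) ^ 66) * (lamf u * (u : ℝ) ^ 66 + 1) := by
            apply mul_le_mul hεu (by linarith) (by positivity) (by positivity)
        _ ≤ 1 / (8 * (u : ℝ) ^ 66) * ((lamf u + 1) * (u : ℝ) ^ 66) := by
            apply mul_le_mul_of_nonneg_left _ (by positivity)
            linarith
        _ = (lamf u + 1) / 8 := by field_simp
        _ ≤ _ := by linarith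
    obtain ⟨l, hlN, hxl⟩ := hNnet x hxP hheavy
    obtain ⟨p, hpA, rfl⟩ := hND l hlN
    exact hT p (Finset.mem_filter.mpr ⟨hpA, hlN⟩) ((hxD p).mp hxl)

end TN
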